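import Pool.Agent.Helper13.HE.St

/-!
Project HE, module RP: RKB and PAR.
-/

set_option autoImplicit false

open Module Classical
open scoped LinearAlgebra.Projectivization

namespace Pool.Agent.Helper95.HE

open Pool.Agent.Helper13.HE Pool.Agent.Helper53.PB

universe u v

private theorem charTwo {F : Type u} [Field F] [Finite F] {h : ℕ} (hF : Nat.card F = 2 ^ h)
    (_hh : 1 ≤ h) : CharP F 2 := by
  have hfin : Fintype F := Fintype.ofFinite F
  have hcard : Fintype.card F = 2 ^ h := by rw [← Nat.card_eq_fintype_card, hF]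
  have hp : Fact (Nat.Prime 2) := ⟨Nat.prime_two⟩
  exact charP_of_card_eq_prime_pow hcard

private theorem polar_alt {F : Type u} [Field F] [Finite F] {V : Type v} [AddCommGroup V]
    [Module F V] (Q : QuadraticForm F V) {h : ℕ} (hF : Nat.card F = 2 ^ h)
    (hh : 1 ≤ h) (x : V) : QuadraticMap.polarBilin Q x x = 0 := by
  have hc := charTwo hF hh
  rw [QuadraticMap.polarBilin_apply_apply, QuadraticMap.polar_self, nsmul_eq_mul]
  have h2 : ((2 : ℕ) : F) = 0 := CharP.cast_eq_zero F 2
  rw [h2, zero_mul]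

private theorem polar_symm {F : Type u} [Field F] {V : Type v} [AddCommGroup V]
    [Module F V] (Q : QuadraticForm F V) (x y : V) :
    QuadraticMap.polarBilin Q x y = QuadraticMap.polarBilin Q y x := by
  rw [QuadraticMap.polarBilin_apply_apply, QuadraticMap.polarBilin_apply_apply,
    QuadraticMap.polar_comm]

theorem hRKB : StRKB.{u, v} := by
  intro F _ _ V _ _ _ Q h d hF hh K y hyK hy0 hrad hfr I hI hIp
  have hdual : ∃ f : V →ₗ[F] F, f y = 1 := by
    have hli : LinearIndepOn F (id : V → V) {y} := LinearIndepOn.singleton (v := id) hy0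
    obtain ⟨f, hf⟩ := Module.exists_dual_forall_apply_eq_one hli
    exact ⟨f, hf y (Set.mem_singleton y)⟩
  obtain ⟨f, hf⟩ := hdual
  have hle : ¬ K ≤ LinearMap.ker f := by
    intro hc
    have := hc hyK
    rw [LinearMap.mem_ker, hf] at this
    exact one_ne_zero this
  have hC := Polar.finrank_inf_ker K f hle
  obtain ⟨C, hCdef⟩ : ∃ C : Submodule F V, C = K ⊓ LinearMap.ker f := ⟨_, rfl⟩
  rw [← hCdef] at hC
  have hCd : finrank F C = d := by omega
  have hmem : ∀ x ∈ K, x - f x • y ∈ C := by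
    intro x hx
    rw [hCdef]
    refine ⟨K.sub_mem hx (K.smul_mem _ hyK), ?_⟩
    rw [SetLike.mem_coe, LinearMap.mem_ker, map_sub, map_smul, hf, smul_eq_mul, mul_one, sub_self]
  have hb : ∀ x ∈ K, ∀ x' ∈ K, QuadraticMap.polarBilin Q (x - f x • y) (x' - f x' • y) =
      QuadraticMap.polar Q x x' := by
    intro x hx x' hx'
    have h1 : QuadraticMap.polarBilin Q y x' = 0 := hrad x' hx'
    have h2 : QuadraticMap.polarBilin Q x y = 0 := by
      rw [polar_symm]; exact hrad x hx
    have h3 : QuadraticMap.polarBilin Q y y = 0 := hrad y hyK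
    simp only [map_sub, LinearMap.sub_apply, map_smul, LinearMap.smul_apply, h1, h2, h3,
      smul_eq_mul, mul_zero, sub_zero]
    rfl
  have hfin := rank_bound hF ((QuadraticMap.polarBilin Q).domRestrict₁₂ C C)
    (α := {P // P ∈ I}) (fun P => ⟨P.1.rep - f P.1.rep • y, hmem _ (hI P.1 P.2)⟩)
    (by
      intro P
      rw [LinearMap.domRestrict₁₂_apply]
      exact polar_alt Q hF hh _)
    (by
      intro P R hPR
      rw [LinearMap.domRestrict₁₂_apply]
      show QuadraticMap.polarBilin Q (P.1.rep - f P.1.rep • y) (R.1.rep - f R.1.rep • y) ≠ 0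
      rw [hb _ (hI P.1 P.2) _ (hI R.1 R.2)]
      exact hIp P.1 P.2 R.1 R.2 (fun hc => hPR (Subtype.ext hc)))
  rw [hCd, Fintype.card_coe] at hfin
  exact hfin

private theorem par_aux {F : Type u} [Field F] {V : Type v} [AddCommGroup V] [Module F V]
    [FiniteDimensional F V] (B : V →ₗ[F] V →ₗ[F] F) (halt : ∀ x, B x x = 0)
    (hsym : ∀ x y, B x y = B y x) (n : ℕ) :
    ∀ K : Submodule F V, finrank F K = n → Odd n → ∃ y ∈ K, y ≠ 0 ∧ ∀ x ∈ K, B y x = 0 := by
  induction n using Nat.strong_induction_on with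
  | _ n ih =>
    intro K hK hodd
    by_cases hall : ∀ a ∈ K, ∀ a' ∈ K, B a a' = 0
    · have hne : K ≠ ⊥ := by
        rintro rfl
        rw [finrank_bot] at hK
        rw [← hK] at hodd
        exact absurd hodd (by decide)
      obtain ⟨y, hy, hy0⟩ := Submodule.exists_mem_ne_zero_of_ne_bot hne
      exact ⟨y, hy, hy0, fun x hx => hall y hy x hx⟩
    · push Not at hall
      obtain ⟨a, ha, a', ha', hne⟩ := hall
      have hne' : B a' a ≠ 0 := by rw [hsym]; exact hne
      have h1 : ¬ K ≤ LinearMap.ker (B a) := fun hc => hne (LinearMap.mem_ker.1 (hc ha'))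
      have h2 := Polar.finrank_inf_ker K (B a) h1
      have h3 : ¬ (K ⊓ LinearMap.ker (B a) : Submodule F V) ≤ LinearMap.ker (B a') := fun hc =>
        hne' (LinearMap.mem_ker.1 (hc ⟨ha, LinearMap.mem_ker.2 (halt a)⟩))
      have h4 := Polar.finrank_inf_ker _ (B a') h3
      obtain ⟨k, hk⟩ := hodd
      have h5 : finrank F (K ⊓ LinearMap.ker (B a) ⊓ LinearMap.ker (B a') : Submodule F V) =
          n - 2 := by omega
      obtain ⟨y, hy, hy0, hyp⟩ := ih (n - 2) (by omega) _ h5 (⟨k - 1, by omega⟩)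
      have hya : B y a = 0 := by rw [hsym]; exact LinearMap.mem_ker.1 hy.1.2
      have hya' : B y a' = 0 := by rw [hsym]; exact LinearMap.mem_ker.1 hy.2
      refine ⟨y, hy.1.1, hy0, ?_⟩
      intro x hx
      obtain ⟨x', hx'⟩ : ∃ x' : V, x' = x - (B a' x / B a' a) • a - (B a x / B a a') • a' :=
        ⟨_, rfl⟩
      have hx'K : x' ∈ (K ⊓ LinearMap.ker (B a) ⊓ LinearMap.ker (B a') : Submodule F V) := by
        refine ⟨⟨?_, ?_⟩, ?_⟩
        · rw [hx']
          exact K.sub_mem (K.sub_mem hx (K.smul_mem _ ha)) (K.smul_mem _ ha')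
        · rw [SetLike.mem_coe, LinearMap.mem_ker, hx', map_sub, map_sub, map_smul, map_smul, halt,
            smul_eq_mul, smul_eq_mul, mul_zero, sub_zero, div_mul_cancel₀ _ hne, sub_self]
        · rw [SetLike.mem_coe, LinearMap.mem_ker, hx', map_sub, map_sub, map_smul, map_smul, halt,
            smul_eq_mul, smul_eq_mul, mul_zero, sub_zero, div_mul_cancel₀ _ hne', sub_self]
      have hxe : x = (B a' x / B a' a) • a + (B a x / B a a') • a' + x' := by
        rw [hx']
        abel
      rw [hxe, map_add, map_add, map_smul, map_smul, hya, hya', hyp x' hx'K]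
      simp

theorem hPAR : StPAR.{u, v} := by
  intro F _ _ V _ _ _ Q h hF hh K hK
  exact par_aux (QuadraticMap.polarBilin Q) (polar_alt Q hF hh) (polar_symm Q) _ K rfl hK

end Pool.Agent.Helper95.HE
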